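import Pool.Agent.Q82.NB9
import Pool.Agent.Elton955.Grun

/-!
MP_c30670_an, Q1.  For every `1 ≤ p < ∞` and every `ε > 0` there is a `(1 + ε)`-basic sequence of
non-negative functions in the real space `L_p(ℝ)` whose closed linear span contains an isometric
copy of `L_p(ℝ)`.
-/

set_option autoImplicit false

noncomputable section

namespace Pool.Agent.Results.MP_c30670_an.NonnegativeBasic

open MeasureTheory Filter Topology
open scoped ENNReal

/-- The real space `L_p(ℝ)` for Lebesgue measure. -/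
abbrev LpR (p : ℝ≥0∞) : Type := Lp ℝ p (volume : Measure ℝ)

/-- The closed linear span of a sequence. -/
def closedSpan {X : Type} [NormedAddCommGroup X] [NormedSpace ℝ X] (f : ℕ → X) : Submodule ℝ X :=
  (Submodule.span ℝ (Set.range f)).topologicalClosure

/-- `f` is a `K`-basic sequence: its members are nonzero, every `y` in the closed linear span has
exactly one expansion `y = ∑ a_n f_n` (convergence of the partial sums in norm), and the
partial-sum projections have norm at most `K`. -/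
def IsKBasic {X : Type} [NormedAddCommGroup X] [NormedSpace ℝ X] (K : ℝ) (f : ℕ → X) : Prop :=
  (∀ n, f n ≠ 0) ∧
  (∀ y ∈ closedSpan f, ∃! a : ℕ → ℝ,
    Tendsto (fun N => ∑ n ∈ Finset.range N, a n • f n) atTop (𝓝 y)) ∧
  (∀ (y : X) (a : ℕ → ℝ), Tendsto (fun N => ∑ n ∈ Finset.range N, a n • f n) atTop (𝓝 y) →
    ∀ N, ‖∑ n ∈ Finset.range N, a n • f n‖ ≤ K * ‖y‖)

theorem result (p : ℝ≥0∞) [Fact (1 ≤ p)] (hp : p ≠ ∞) (ε : ℝ) (hε : 0 < ε) :
    ∃ f : ℕ → LpR p, IsKBasic (1 + ε) f ∧ (∀ n, ∀ᵐ x ∂(volume : Measure ℝ), 0 ≤ f n x) ∧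
      ∃ T : LpR p →ₗᵢ[ℝ] LpR p, ∀ g, T g ∈ closedSpan f := by
  have hp1 : (1:ℝ≥0∞) ≤ p := Fact.out
  have hq1 : 1 ≤ p.toReal := by
    have := (ENNReal.toReal_le_toReal ENNReal.one_ne_top hp).mpr hp1
    simpa using this
  obtain ⟨D, hD⟩ := Pool.Agent.Q82.NB.exists_dat hq1 hε
  have hineq := D.basis_ineq hp hε hD
  refine ⟨D.f, ⟨D.f_ne_zero hp, ?_, ?_⟩, ?_, D.iso hp, D.iso_mem hp⟩
  · exact Elton955.Grun.grunblum D.f (D.f_ne_zero hp) (1 + ε) (fun a m n hmn => hineq a m n hmn)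
  · intro y a hy N
    apply ge_of_tendsto ((hy.norm).const_mul (1 + ε))
    filter_upwards [eventually_ge_atTop N] with N' hN'
    exact hineq a N N' hN'
  · intro n
    exact (Lp.coeFn_nonneg _).mpr (D.f_nonneg n)

end Pool.Agent.Results.MP_c30670_an.NonnegativeBasic
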